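import Pool.Agent.H76.CW.StmtB
import Pool.Agent.H71.CW.Wid

/-!
The general form: directions with infinitely many germs.
-/

set_option autoImplicit false

open Set Pool.Agent.TK Pool.Agent.H71.VK

namespace Pool.Agent.CW

/-- sets of finite index: finitely many classes over the complement -/
def Fi (c : ℕ → ℕ → ℕ) (A : Set ℕ) : Prop := ∃ m, Few c m Aᶜ A

/-- directions: ultrafilters of the algebra of the sets of finite index without finite sets -/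
structure Dirn (c : ℕ → ℕ → ℕ) (U : Set (Set ℕ)) : Prop where
  fi : ∀ A ∈ U, Fi c A
  up : ∀ A ∈ U, ∀ B, Fi c B → A ⊆ B → B ∈ U
  int : ∀ A ∈ U, ∀ B ∈ U, A ∩ B ∈ U
  ult : ∀ A, Fi c A → A ∈ U ∨ Aᶜ ∈ U
  fin : ∀ A ∈ U, A.Infinite

/-- finitely many germs at `U` -/
def FGm (c : ℕ → ℕ → ℕ) (U : Set (Set ℕ)) : Prop :=
  ∃ E : List ℕ, ∀ x, ∃ r ∈ E, ∃ A ∈ U, ∀ y ∈ A, ee c x y = ee c r y

/-- finitely many germs at every direction -/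
def FG (c : ℕ → ℕ → ℕ) : Prop := ∀ U, Dirn c U → FGm c U

/-- FIA: the sets of finite index form an algebra which contains the finite sets. -/
def T_FIA : Prop :=
  ∀ (n : ℕ) (c : ℕ → ℕ → ℕ), (∀ x y, c x y < n) →
    (∀ A, Fi c A → Fi c Aᶜ) ∧ (∀ A B, Fi c A → Fi c B → Fi c (A ∩ B)) ∧
    ∀ A : Set ℕ, A.Finite → Fi c A

/-- WFG: structures of finite width have finitely many germs at every direction. -/
def T_WFG : Prop :=
  ∀ (n : ℕ) (c : ℕ → ℕ → ℕ) (k : ℕ), (∀ x y, c x y < n) → Wd c k → FG c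

/-- the hypothesis on the structure and the group in the general form -/
abbrev Hq := ∀ (n : ℕ) (c : ℕ → ℕ → ℕ) (Sm : Pr → Prop), GS n c Sm → Prop

/-- good pieces can be split -/
def SpG (n : ℕ) (c : ℕ → ℕ → ℕ) (Sm : Pr → Prop) (G : GS n c Sm) : Prop :=
  ∀ π : Pr, Vd c π → ¬ G.Nn (st c π) → ∃ (σ : Pr) (S : List ℕ) (F : Tab) (x : ℕ),
    Vd c ((S, F, x, true) :: (σ ++ π)) ∧ ¬ G.Nn (st c ((S, F, x, true) :: (σ ++ π))) ∧
    ¬ G.Nn (st c ((S, F, x, false) :: (σ ++ π)))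

/-- the direction of a piece -/
def Dr {n : ℕ} {c : ℕ → ℕ → ℕ} {Sm : Pr → Prop} (G : GS n c Sm) (π : Pr) : Set (Set ℕ) :=
  {A | Fi c A ∧ G.Nn (st c π \ A)}

/-- a good piece which gives a direction with infinitely many germs; all members of the direction
contain good pieces -/
structure DG (n : ℕ) (c : ℕ → ℕ → ℕ) (Sm : Pr → Prop) (G : GS n c Sm) (π : Pr) : Prop where
  vd : Vd c π
  good : ¬ G.Nn (st c π)
  dir : Dirn c (Dr G π)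
  germ : ¬ FGm c (Dr G π)
  pc : ∀ A ∈ Dr G π, ∃ s : Stp, Vd c (s :: π) ∧ ¬ G.Nn (st c (s :: π)) ∧ st c (s :: π) ⊆ A

/-- DIR: good pieces can be split or there is a direction with infinitely many germs. -/
def T_DIR : Prop :=
  ∀ (n : ℕ) (c : ℕ → ℕ → ℕ) (Sm : Pr → Prop) (G : GS n c Sm), SpG n c Sm G ∨ ∃ π, DG n c Sm G π

/-- SPL for a property `Q`. -/
def G_SPL (Q : Hq) : Prop :=
  ∀ (n : ℕ) (c : ℕ → ℕ → ℕ) (Sm : Pr → Prop) (G : GS n c Sm), Q n c Sm G → ∀ π : Pr,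
    Vd c π → ¬ G.Nn (st c π) → ∃ (σ : Pr) (S : List ℕ) (F : Tab) (x : ℕ),
      Vd c ((S, F, x, true) :: (σ ++ π)) ∧ ¬ G.Nn (st c ((S, F, x, true) :: (σ ++ π))) ∧
      ¬ G.Nn (st c ((S, F, x, false) :: (σ ++ π)))

/-- AVO for a property `Q`. -/
def G_AVO (Q : Hq) : Prop :=
  ∀ (n : ℕ) (c : ℕ → ℕ → ℕ) (Sm : Pr → Prop) (G : GS n c Sm), Q n c Sm G → ∀ π : Pr,
    Vd c π → ¬ G.Nn (st c π) → ∀ Z : List ℕ, ∃ σ : Pr, Vd c (σ ++ π) ∧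
      ¬ G.Nn (st c (σ ++ π)) ∧ (∀ a ∈ Z, a ∉ st c (σ ++ π)) ∧
      ∀ a ∈ dl (σ ++ π), a ∉ st c (σ ++ π)

/-- NOD for a property `Q`. -/
def G_NOD (Q : Hq) : Prop :=
  ∀ (n : ℕ) (c : ℕ → ℕ → ℕ) (Sm : Pr → Prop) (G : GS n c Sm), Q n c Sm G → ∀ π : Pr,
    Vd c π → ¬ G.Nn (st c π) → ∀ (Z : List ℕ) (ρ : Pr), Vd c ρ →
    ∃ f : Fin 3 → Pr, ∀ i, (∃ σ : Pr, f i = σ ++ π) ∧ Vd c (f i) ∧ ¬ G.Nn (st c (f i)) ∧
      (∀ a ∈ Z, a ∉ st c (f i)) ∧ (∀ j, ∀ a ∈ dl (f i), a ∉ st c (f j)) ∧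
      (∀ j, i ≠ j → Disjoint (st c (f i)) (st c (f j))) ∧
      (st c (f i) ⊆ st c ρ ∨ Disjoint (st c (f i)) (st c ρ))

/-- SCH for a property `Q`. -/
def G_SCH (Q : Hq) : Prop :=
  ∀ (n : ℕ) (c : ℕ → ℕ → ℕ) (Sm : Pr → Prop) (G : GS n c Sm), Q n c Sm G →
    ∃ D B : List Bool → Pr, Sch c Sm D B

end Pool.Agent.CW
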