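import Pool.Agent.H71.CW.Main
import Pool.Agent.H76.CW.StmtG

/-!
The theorem for coded structures in the general form: a direction with infinitely many germs.
-/

set_option autoImplicit false

open Set Pool.Agent.TK Pool.Agent.H71.VK

namespace Pool.Agent.CW

open Pool.Agent.H41.ST (RelN FlatN)

/-- SYH: the interface of the group with more information on the group. -/
def T_SYH (C : Type) (c0 : C) : Prop :=
  ∀ (n : ℕ) (O : Set (Tr C)) (M : St (C × ℕ)), BV c0 n M →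
    (∀ (π : Pr) (S : List ℕ) (F : Tab), Vd (bn M) π → (∀ a ∈ S, a ∈ st (bn M) π) → Sy F →
      {D : Set ℕ | ∃ v ∈ st (bn M) π, v ∉ S ∧ ¬ SmO O M ((S, F, v, true) :: π) ∧
        D = st (bn M) ((S, F, v, true) :: π)}.Finite) →
    ∀ (ν : List ℕ → ℕ) (φ : Y (C × ℕ)), FlatN (NG O M) M ν φ → PDiv (AutY φ) →
      ∃ G : GS n (bn M) (SmO O M), ∀ p ∈ G.K, IsoH p.1 M M

/-- **The general theorem for coded structures.** -/
theorem gdf_of {C : Type} [MeasurableSpace C] [StandardBorelSpace C] {c0 : C}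
    (hCTB : T_CTB C) (hFNB : T_FNB C) (hGNG : T_GNG C c0) (hSYG : T_SYH C c0)
    (hDIR : T_DIR) (hSCH : G_SCH SpG) (hEND : E_END C) (n : ℕ) (X : Set (St (C × ℕ)))
    (hX : MeasurableSet X) (hV : ∀ M ∈ X, BV c0 n M) (hI : ∀ M ∈ X, ∀ N, Iso M N → N ∈ X)
    (P : St (C × ℕ) → Prop)
    (hP : ∀ M ∈ X, ∀ (O : Set (Tr C)) (G : GS n (bn M) (SmO O M)), (∀ p ∈ G.K, IsoH p.1 M M) →
      ∀ π, DG n (bn M) (SmO O M) G π → P M) :
    Perf X ∨ (∃ T : Set (St (C × ℕ)), T.Countable ∧ ∀ M ∈ X, ∃ N ∈ T, Iso M N) ∨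
      ¬ ∃ T : Set (St (C × ℕ)), T.Countable ∧ ∀ M ∈ X, P M → ∃ N ∈ T, Iso M N := by
  by_cases hPf : Perf X
  · exact Or.inl hPf
  right
  obtain ⟨b, hy⟩ := exists_hy hX hV hI hPf
  obtain ⟨O, hO, hO2⟩ := hCTB c0 n X hV hy.tc b
  refine (hGNG n O hO X hX hV P ?_).resolve_left hPf
  intro M hM ν φ hF hd
  obtain ⟨G, hG⟩ := hSYG n O M (hV M hM) (fun π S F hπ hS hF => by
    refine (hFNB c0 n b X hy M hM π S F hπ hS hF).subset ?_
    rintro D ⟨v, hv, hvS, hSm, rfl⟩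
    refine ⟨v, hv, hvS, fun hs => hSm ?_, rfl⟩
    exact hO2 M hM ((S, F, v, true) :: π) (vd_cons.2 ⟨hπ, hS, hv, hvS⟩) hs) ν φ hF hd
  rcases hDIR n (bn M) (SmO O M) G with h | ⟨π, hπ⟩
  · obtain ⟨D, B, hS⟩ := hSCH n (bn M) (SmO O M) G h
    exact (hEND c0 n b X hy M hM (SmO O M) D B hS fun π hπ hs => hO2 M hM π hπ hs).elim
  · exact hP M hM O G hG π hπ

end Pool.Agent.CW
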