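import Pool.Agent.H76.CW.FIA
import Pool.Agent.H71.CW.Gms

/-! Structures with at most `m` germs at every direction: the Borel form. -/

set_option autoImplicit false

open Set Pool.Agent.TK Pool.Agent.H71.VK

namespace Pool.Agent.CW

lemma dirn_univ {c : ℕ → ℕ → ℕ} {U : Set (Set ℕ)} (hU : Dirn c U) : (univ : Set ℕ) ∈ U := by
  have h0 : Fi c ∅ := ⟨1, fun _ => 0, fun a ha => absurd ha (Set.notMem_empty a)⟩
  rcases hU.ult ∅ h0 with h | h
  · exact absurd finite_empty (hU.fin ∅ h)
  · rwa [compl_empty] at h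

lemma cor_fi (hFTY : T_FTY) {n : ℕ} {c : ℕ → ℕ → ℕ} (hb : ∀ x y, c x y < n) (S : List ℕ)
    (F : Tab) (a b : ℕ) : Fi c (Cor c S F a b) := by
  have hfin := hFTY n c hb S
  have hf : Finite {t : Ty | ∃ x, tp c S x = t} := hfin
  refine fi_of (β := {t : Ty | ∃ x, tp c S x = t}) (fun x => ⟨tp c S x, x, rfl⟩) ?_
  intro x hx x' hx' ht z hz
  have ht' : tp c S x = tp c S x' := by
    have := congrArg Subtype.val ht
    exact this
  by_cases hzS : z ∈ S
  · exact tp_eq_iff.1 ht' z hzS
  · have key : ∀ u ∈ Cor c S F a b, ee c u z = lk F (tp c S u) (tp c S z) := by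
      intro u hu
      refine cl_out self_mem_cl (mem_univ z) hzS fun hzc => hz ⟨hzS, fun w hw => hu.2 w ?_⟩
      exact Relation.ReflTransGen.trans hzc hw
    rw [key x hx, key x' hx', ht']

open Classical in
/-- GM1: the two forms are equivalent. -/
theorem pf_GM1 (hFTY : T_FTY) (hFIX : T_FIX) (hFIA : T_FIA) : T_GM1 := by
  intro n c hb m
  obtain ⟨hcomp, hint, hfin⟩ := hFIA n c hb
  constructor
  · intro hA f
    -- the sets on which two of the germs agree, and the finite sets
    let 𝒜 : Set (Set ℕ) := {A | Fi c A ∧ (A.Finite ∨ ∃ i j, i ≠ j ∧ ∀ y ∈ A,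
      ee c (f i) y = ee c (f j) y)}
    have hcov : ∃ t ⊆ 𝒜, t.Finite ∧ ⋃₀ t = univ := by
      by_contra hcon
      push Not at hcon
      have hne : (Filter.generate (compl '' 𝒜)).NeBot := by
        rw [Filter.generate_neBot_iff]
        intro t ht htf
        have h1 : ⋃₀ (compl '' t) ≠ univ := by
          refine hcon (compl '' t) ?_ (htf.image _)
          rintro _ ⟨B, hB, rfl⟩
          obtain ⟨A, hA, rfl⟩ := ht hB
          rwa [compl_compl]
        rw [Set.nonempty_iff_ne_empty]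
        intro h2
        apply h1
        rw [← Set.compl_sInter, h2, compl_empty]
      let V : Ultrafilter ℕ := Ultrafilter.of (Filter.generate (compl '' 𝒜))
      have hV : ∀ A ∈ 𝒜, Aᶜ ∈ V := fun A hA =>
        Ultrafilter.of_le _ (Filter.mem_generate_of_mem ⟨A, hA, rfl⟩)
      have hU : Dirn c {A | Fi c A ∧ A ∈ V} := by
        constructor
        · exact fun A hA => hA.1
        · exact fun A hA B hB hAB => ⟨hB, Filter.mem_of_superset hA.2 hAB⟩
        · exact fun A hA B hB => ⟨hint A B hA.1 hB.1, Filter.inter_mem hA.2 hB.2⟩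
        · intro A hA
          rcases V.mem_or_compl_mem A with h | h
          · exact Or.inl ⟨hA, h⟩
          · exact Or.inr ⟨hcomp A hA, h⟩
        · intro A hA hAf
          have h1 := hV A ⟨hA.1, Or.inl hAf⟩
          exact Ultrafilter.compl_mem_iff_notMem.1 h1 hA.2
      obtain ⟨i, j, hij, A, hAU, hAg⟩ := hA _ hU f
      have h1 := hV A ⟨hAU.1, Or.inr ⟨i, j, hij, hAg⟩⟩
      exact Ultrafilter.compl_mem_iff_notMem.1 h1 hAU.2
    obtain ⟨t, ht, htf, htu⟩ := hcov
    -- group the sets by the pair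
    have hun : ∀ s : Set (Set ℕ), s.Finite → s ⊆ 𝒜 → Fi c (⋃₀ s) := by
      intro s hs
      induction s, hs using Set.Finite.induction_on with
      | empty =>
        intro _
        rw [sUnion_empty]
        exact hfin ∅ finite_empty
      | @insert A s _ _ ih =>
        intro hs'
        rw [sUnion_insert]
        have h1 : Fi c A := (hs' (mem_insert A s)).1
        have h2 : Fi c (⋃₀ s) := ih fun B hB => hs' (mem_insert_of_mem A hB)
        have h3 := hcomp _ (hint _ _ (hcomp _ h1) (hcomp _ h2))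
        rwa [Set.compl_inter, compl_compl, compl_compl] at h3
    let P : Fin (m + 1) → Fin (m + 1) → Set ℕ := fun i j =>
      ⋃₀ {A ∈ t | i ≠ j ∧ ∀ y ∈ A, ee c (f i) y = ee c (f j) y}
    have hP : ∀ i j, ∃ (S : List ℕ) (F : Tab), ∀ x ∈ P i j, x ∉ S → ∀ y, y ∉ P i j → y ∉ S →
        ee c x y = lk F (tp c S x) (tp c S y) := by
      intro i j
      obtain ⟨k, hk⟩ := hun _ (htf.subset (sep_subset t _)) ((sep_subset t
        (fun A => i ≠ j ∧ ∀ y ∈ A, ee c (f i) y = ee c (f j) y)).trans ht)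
      obtain ⟨S, F, F', -, h1, -⟩ := hFIX n c hb univ (P i j) [] k (subset_univ _) (by
        rw [← Set.compl_eq_univ_sdiff]
        exact hk)
      refine ⟨S, F, fun x hx hxS y hy hyS => ?_⟩
      have h2 := h1 x hx hxS y (mem_univ y) hy hyS
      rwa [List.append_nil] at h2
    choose S F hSF using hP
    -- a bound for the finite part
    have hbd : ({x | ∃ A ∈ t, A.Finite ∧ x ∈ A} ∪ ⋃ i, ⋃ j, {x | x ∈ S i j}).Finite := by
      refine Set.Finite.union ?_ ?_
      · refine ((htf.subset (sep_subset t fun A => A.Finite)).sUnion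
          (fun A hA => hA.2)).subset ?_
        rintro x ⟨A, hA, hAf, hx⟩
        exact ⟨A, ⟨hA, hAf⟩, hx⟩
      · exact Set.finite_iUnion fun i => Set.finite_iUnion fun j => (S i j).finite_toSet
    obtain ⟨N, hN⟩ := hbd.bddAbove
    refine ⟨fun i j => (S i j, F i j), N + 1, fun y hy => ?_⟩
    have hyb : y ∉ ({x | ∃ A ∈ t, A.Finite ∧ x ∈ A} ∪ ⋃ i, ⋃ j, {x | x ∈ S i j}) := fun h => by
      have := hN h
      omega
    rw [mem_union, not_or] at hyb
    have hyt : y ∈ ⋃₀ t := by
      rw [htu]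
      exact mem_univ y
    obtain ⟨A, hAt, hyA⟩ := hyt
    rcases (ht hAt).2 with h | ⟨i, j, hij, hag⟩
    · exact absurd ⟨A, hAt, h, hyA⟩ hyb.1
    refine ⟨i, j, hij, ?_⟩
    have hyS : ∀ i j, y ∉ S i j := fun i j h => hyb.2 (mem_iUnion.2 ⟨i, mem_iUnion.2 ⟨j, h⟩⟩)
    have hyP : y ∈ P i j := ⟨A, ⟨hAt, hij, hag⟩, hyA⟩
    refine ⟨hyS i j, fun z hz => ?_⟩
    have h1 : cl c univ (S i j) (F i j) y ⊆ {x | x ∈ P i j ∧ x ∉ S i j} := by
      refine cl_min ⟨hyP, hyS i j⟩ ?_
      rintro u ⟨hu, huS⟩ v _ hvS hv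
      refine ⟨?_, hvS⟩
      by_contra hvP
      exact hv (hSF i j u hu huS v hvP hvS)
    obtain ⟨B, ⟨-, -, hB⟩, hzB⟩ := (h1 hz).1
    exact hB z hzB
  · intro hQ U hU f
    obtain ⟨g, N, hg⟩ := hQ f
    by_contra hcon
    push Not at hcon
    have h1 : ∀ i j, i ≠ j → (Cor c (g i j).1 (g i j).2 (f i) (f j))ᶜ ∈ U := by
      intro i j hij
      rcases hU.ult _ (cor_fi hFTY hb (g i j).1 (g i j).2 (f i) (f j)) with h | h
      · exfalso
        obtain ⟨y, hy, hne⟩ := hcon i j hij _ h
        exact hne (hy.2 y self_mem_cl)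
      · exact h
    have h2 : ∀ s : Finset (Fin (m + 1) × Fin (m + 1)),
        (⋂ p ∈ s, {x | p.1 ≠ p.2 → x ∉ Cor c (g p.1 p.2).1 (g p.1 p.2).2 (f p.1) (f p.2)}) ∈ U := by
      intro s
      induction s using Finset.induction_on with
      | empty =>
        simp only [Finset.notMem_empty, iInter_of_empty, iInter_univ]
        exact dirn_univ hU
      | insert p s _ ih =>
        rw [Finset.set_biInter_insert]
        refine hU.int _ ?_ _ ih
        by_cases hp : p.1 = p.2
        · have h3 : {x | p.1 ≠ p.2 → x ∉ Cor c (g p.1 p.2).1 (g p.1 p.2).2 (f p.1) (f p.2)} =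
              univ := by
            ext x
            simp [hp]
          rw [h3]
          exact dirn_univ hU
        · have h3 : {x | p.1 ≠ p.2 → x ∉ Cor c (g p.1 p.2).1 (g p.1 p.2).2 (f p.1) (f p.2)} =
              (Cor c (g p.1 p.2).1 (g p.1 p.2).2 (f p.1) (f p.2))ᶜ := by
            ext x
            simp [hp]
          rw [h3]
          exact h1 _ _ hp
    refine hU.fin _ (h2 Finset.univ) ((Set.finite_lt_nat N).subset ?_)
    intro y hy
    by_contra hyN
    obtain ⟨i, j, hij, hyC⟩ := hg y (not_lt.1 hyN)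
    simp only [Finset.mem_univ, iInter_true, mem_iInter] at hy
    exact hy (i, j) hij hyC

end Pool.Agent.CW
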