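import Pool.Agent.H76.CW.BasicB

/-!
Statements of group B: tables, CONTRA, DEC, SPLIT, SCHEME (sections 1, 4, 5, 6, 7 of the text).
-/

set_option autoImplicit false

open Set Pool.Agent.TK Pool.Agent.H71.VK

namespace Pool.Agent.CW

/-- TAB: tables with given values. -/
def T_TAB : Prop :=
  ∀ (K : Set Ty), K.Finite → ∀ G : Ty → Ty → ℕ × ℕ, ∃ F : Tab,
    (∀ s ∈ K, ∀ t ∈ K, lk F s t = G s t) ∧
    ((∀ s ∈ K, ∀ t ∈ K, G s t = (G t s).swap) → Sy F)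

/-- FTY: there are finitely many types over a list. -/
def T_FTY : Prop :=
  ∀ (n : ℕ) (c : ℕ → ℕ → ℕ), (∀ x y, c x y < n) → ∀ L : List ℕ, {t : Ty | ∃ x, tp c L x = t}.Finite

/-- SYT: symmetric tables from a consistent relation. -/
def T_SYT : Prop :=
  ∀ (n : ℕ) (c : ℕ → ℕ → ℕ), (∀ x y, c x y < n) → ∀ (L : List ℕ) (Q : ℕ → ℕ → Prop),
    (∀ x y x' y', Q x y → Q x' y' → tp c L x = tp c L x' → tp c L y = tp c L y' →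
      ee c x y = ee c x' y') →
    (∀ x y x' y', Q x y → Q x' y' → tp c L x = tp c L y' → tp c L y = tp c L x' →
      ee c x y = ee c y' x') →
    ∃ F : Tab, Sy F ∧ ∀ x y, Q x y → ee c x y = lk F (tp c L x) (tp c L y)

/-- RFT: a table over a longer list with the same values. -/
def T_RFT : Prop :=
  ∀ (n : ℕ) (c : ℕ → ℕ → ℕ), (∀ x y, c x y < n) → ∀ (L L' : List ℕ), L ⊆ L' → ∀ F : Tab,
    ∃ F' : Tab, (∀ u v, lk F' (tp c L' u) (tp c L' v) = lk F (tp c L u) (tp c L v)) ∧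
      (Sy F → Sy F')

/-- FIX: sets of finite index are closed for some table, their complements for another. -/
def T_FIX : Prop :=
  ∀ (n : ℕ) (c : ℕ → ℕ → ℕ), (∀ x y, c x y < n) → ∀ (P A : Set ℕ) (z : List ℕ) (m : ℕ),
    A ⊆ P → Few c m (P \ A) A → ∃ (S : List ℕ) (F F' : Tab), (∀ a ∈ S, a ∈ P) ∧
      (∀ x ∈ A, x ∉ S → ∀ y ∈ P, y ∉ A → y ∉ S →
        ee c x y = lk F (tp c (S ++ z) x) (tp c (S ++ z) y)) ∧
      ∀ x ∈ P, x ∉ A → x ∉ S → ∀ y ∈ A, y ∉ S →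
        ee c x y = lk F' (tp c (S ++ z) x) (tp c (S ++ z) y)

section
variable {n : ℕ} {c : ℕ → ℕ → ℕ} {Sm : Pr → Prop}

/-- the new part of the support -/
def GS.sp (G : GS n c Sm) (Z : List ℕ) (x : ℕ) : Finset ℕ := G.sup (x :: Z) \ G.sup Z

/-- the situation of CONTRA: `lam x` represents the germ of `x` -/
structure CD (G : GS n c Sm) (π : Pr) (Z : List ℕ) (lam : ℕ → ℕ) : Prop where
  vd : Vd c π
  dlZ : dl π ⊆ Z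
  lamZ : ∀ x ∈ st c π, lam x ∈ Z ∧ lam x ∈ st c π
  germ : ∀ x ∈ st c π, G.Nn (df c (st c π) x (lam x))
  inv : ∀ p ∈ G.K, (∀ z ∈ Z, p.1 z = z) → ∀ x ∈ st c π, lam (p.1 x) = lam x
  good : ∃ v ∈ st c π, ¬ G.sup (v :: Z) ⊆ G.sup Z

end

/-- CT1: steps (1), (2), (3) of CONTRA. -/
def T_CT1 : Prop :=
  ∀ (n : ℕ) (c : ℕ → ℕ → ℕ) (Sm : Pr → Prop) (G : GS n c Sm) (π : Pr) (Z : List ℕ)
    (lam : ℕ → ℕ), CD G π Z lam → ∀ x ∈ st c π, ∀ y ∈ st c π, (G.sp Z x).Nonempty →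
    G.sp Z y ≠ G.sp Z x → ee c x y = ee c x (lam y)

/-- CT2: steps (4), (5) and the end of CONTRA. -/
def T_CT2 : Prop :=
  ∀ (n : ℕ) (c : ℕ → ℕ → ℕ) (Sm : Pr → Prop) (G : GS n c Sm) (π : Pr) (Z : List ℕ)
    (lam : ℕ → ℕ), CD G π Z lam →
    (∀ x ∈ st c π, ∀ y ∈ st c π, (G.sp Z x).Nonempty → G.sp Z y ≠ G.sp Z x →
      ee c x y = ee c x (lam y)) → False

/-- CON: no good piece has finitely many germs. -/
def T_CON : Prop :=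
  ∀ (n : ℕ) (c : ℕ → ℕ → ℕ) (Sm : Pr → Prop) (G : GS n c Sm) (π : Pr), Vd c π →
    ¬ G.Nn (st c π) → ∀ E : List ℕ, (∀ x ∈ E, x ∈ st c π) →
    ¬ ∀ x ∈ st c π, ∃ r ∈ E, G.Nn (df c (st c π) x r)

/-- DEC: sets of finite index are decided by a good step. -/
def T_DEC : Prop :=
  ∀ (n : ℕ) (c : ℕ → ℕ → ℕ) (Sm : Pr → Prop) (G : GS n c Sm) (π : Pr), Vd c π →
    ¬ G.Nn (st c π) → ∀ (m : ℕ) (A : Set ℕ), A ⊆ st c π → Few c m (st c π \ A) A →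
    ∃ s : Stp, Vd c (s :: π) ∧ ¬ G.Nn (st c (s :: π)) ∧
      (st c (s :: π) ⊆ A ∨ Disjoint (st c (s :: π)) A)

/-- WID: the use of the width. -/
def T_WID : Prop :=
  ∀ (n : ℕ) (c : ℕ → ℕ → ℕ) (k : ℕ), (∀ x y, c x y < n) → Wd c k →
    ∀ (P : Set ℕ) (I : Set ℕ → Prop), (∀ A B, I B → A ⊆ B → I A) →
    (∀ A B, I A → I B → I (A ∪ B)) → (∀ A : Set ℕ, A.Finite → I A) → ¬ I P →
    (∀ (m : ℕ) (A : Set ℕ), A ⊆ P → Few c m (P \ A) A → I A ∨ I (P \ A)) →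
    ∃ E : List ℕ, (∀ x ∈ E, x ∈ P) ∧ ∀ x ∈ P, ∃ r ∈ E, I (df c P x r)

/-- ULT: in an atom the ideal is prime for the sets of finite index. -/
def T_ULT : Prop :=
  ∀ (n : ℕ) (c : ℕ → ℕ → ℕ) (Sm : Pr → Prop) (G : GS n c Sm) (π : Pr), Vd c π →
    ¬ G.Nn (st c π) →
    (∀ (σ : Pr) (S : List ℕ) (F : Tab) (x : ℕ), Vd c ((S, F, x, true) :: (σ ++ π)) →
      G.Nn (st c ((S, F, x, true) :: (σ ++ π))) ∨ G.Nn (st c ((S, F, x, false) :: (σ ++ π)))) →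
    ∀ (m : ℕ) (A : Set ℕ), A ⊆ st c π → Few c m (st c π \ A) A → G.Nn A ∨ G.Nn (st c π \ A)

/-- SPL: good pieces can be split. -/
def T_SPL : Prop :=
  ∀ (n : ℕ) (c : ℕ → ℕ → ℕ) (Sm : Pr → Prop) (G : GS n c Sm) (k : ℕ), Wd c k → ∀ π : Pr,
    Vd c π → ¬ G.Nn (st c π) → ∃ (σ : Pr) (S : List ℕ) (F : Tab) (x : ℕ),
      Vd c ((S, F, x, true) :: (σ ++ π)) ∧ ¬ G.Nn (st c ((S, F, x, true) :: (σ ++ π))) ∧
      ¬ G.Nn (st c ((S, F, x, false) :: (σ ++ π)))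

/-- AVO: good pieces contain good pieces which avoid all parameters. -/
def T_AVO : Prop :=
  ∀ (n : ℕ) (c : ℕ → ℕ → ℕ) (Sm : Pr → Prop) (G : GS n c Sm) (k : ℕ), Wd c k → ∀ π : Pr,
    Vd c π → ¬ G.Nn (st c π) → ∀ Z : List ℕ, ∃ σ : Pr, Vd c (σ ++ π) ∧
      ¬ G.Nn (st c (σ ++ π)) ∧ (∀ a ∈ Z, a ∉ st c (σ ++ π)) ∧
      ∀ a ∈ dl (σ ++ π), a ∉ st c (σ ++ π)

/-- DC2: a good piece contains a good piece which decides a given piece. -/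
def T_DC2 : Prop :=
  ∀ (n : ℕ) (c : ℕ → ℕ → ℕ) (Sm : Pr → Prop) (G : GS n c Sm) (π ρ : Pr), Vd c π → Vd c ρ →
    ¬ G.Nn (st c π) → ∃ σ : Pr, Vd c (σ ++ π) ∧ ¬ G.Nn (st c (σ ++ π)) ∧
      (st c (σ ++ π) ⊆ st c ρ ∨ Disjoint (st c (σ ++ π)) (st c ρ))

/-- NOD: the node of the scheme. -/
def T_NOD : Prop :=
  ∀ (n : ℕ) (c : ℕ → ℕ → ℕ) (Sm : Pr → Prop) (G : GS n c Sm) (k : ℕ), Wd c k → ∀ π : Pr,
    Vd c π → ¬ G.Nn (st c π) → ∀ (Z : List ℕ) (ρ : Pr), Vd c ρ →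
    ∃ f : Fin 3 → Pr, ∀ i, (∃ σ : Pr, f i = σ ++ π) ∧ Vd c (f i) ∧ ¬ G.Nn (st c (f i)) ∧
      (∀ a ∈ Z, a ∉ st c (f i)) ∧ (∀ j, ∀ a ∈ dl (f i), a ∉ st c (f j)) ∧
      (∀ j, i ≠ j → Disjoint (st c (f i)) (st c (f j))) ∧
      (st c (f i) ⊆ st c ρ ∨ Disjoint (st c (f i)) (st c ρ))

/-- SCH: the Cantor scheme. -/
def T_SCH : Prop :=
  ∀ (n : ℕ) (c : ℕ → ℕ → ℕ) (Sm : Pr → Prop) (_ : GS n c Sm) (k : ℕ), Wd c k →
    ∃ D B : List Bool → Pr, Sch c Sm D B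

end Pool.Agent.CW
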