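import Pool.Agent.H76.CW.StmtC

set_option autoImplicit false

open Set Pool.Agent.TK Pool.Agent.H71.VK

namespace Pool.Agent.CW

section
variable {C ι : Type} {c0 : C} {n : ℕ} {b : Rk} {M : St (C × ℕ)} {B : ι → Set ℕ}
    {z : ι → List ℕ} {R : ι → St (C × ℕ)}

/-- answering the points of a list, counted ranks -/
lemma ps_list_aux (hPSE : T_PSE C) (hRA : RA c0 n b M B z R) (Δ : Set ι) (r : Rk) :
    ∀ (e : List ℕ) (m : ℕ) (p : List (ℕ × ℕ)), Ps M B z R Δ (Rk.sucN (e.length + m) r) p →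
      ∃ p', Ps M B z R Δ (Rk.sucN m r) p' ∧ (∀ q ∈ p, q ∈ p') ∧ ∀ a ∈ e, ∃ a', (a, a') ∈ p'
  | [], m, p, h => by
    rw [List.length_nil, Nat.zero_add] at h
    exact ⟨p, h, fun q hq => hq, by simp⟩
  | a :: e, m, p, h => by
    have e1 : (a :: e).length + m = (e.length + m) + 1 := by
      rw [List.length_cons]
      omega
    rw [e1] at h
    obtain ⟨a', ha'⟩ := ((hPSE ι c0 n b M B z R hRA Δ).2.2.2.2
      (fun _ => Rk.sucN (e.length + m) r) p h 0).1 a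
    obtain ⟨p', h1, h2, h3⟩ := ps_list_aux hPSE hRA Δ r e m _ ha'
    refine ⟨p', h1, fun q hq => h2 q (List.mem_cons_of_mem _ hq), fun x hx => ?_⟩
    rcases List.mem_cons.1 hx with rfl | hx
    · exact ⟨a', h2 _ List.mem_cons_self⟩
    · exact h3 x hx

/-- answering the points of a list -/
lemma ps_list (hPSE : T_PSE C) (hRA : RA c0 n b M B z R) (Δ : Set ι) (r : Rk) (e : List ℕ)
    (p : List (ℕ × ℕ)) (h : Ps M B z R Δ (Rk.lim r) p) :
    ∃ (f : ℕ → ℕ) (p' : List (ℕ × ℕ)), Ps M B z R Δ r p' ∧ (∀ q ∈ p, q ∈ p') ∧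
      ∀ a ∈ e, (a, f a) ∈ p' := by
  classical
  have h1 : Ps M B z R Δ (Rk.sucN (e.length + 0) r) p :=
    (hPSE ι c0 n b M B z R hRA Δ).2.1 _ _ p (RLe.lim' _ r) h
  obtain ⟨p', h2, h3, h4⟩ := ps_list_aux hPSE hRA Δ r e 0 p h1
  refine ⟨fun a => if ha : ∃ a', (a, a') ∈ p' then ha.choose else 0, p', h2, h3, fun a ha => ?_⟩
  have h5 := h4 a ha
  simp only [dif_pos h5]
  exact h5.choose_spec

end

theorem pf_DCD {C : Type} (hMEM : T_MEM C) (hCOM : T_COM C) (hPSE : T_PSE C) (hRP0 : T_RP0 C) :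
    T_DCD C := by
  classical
  intro ι c0 n b M B z R hRA T π hπ
  have h0 : Ps M B z R T b (dg []) := (hPSE ι c0 n b M B z R hRA T).1 [] (by simp)
  have h1 : Ps M B z R T (Rk.lim (Rk.lim om2)) (dg []) :=
    (hPSE ι c0 n b M B z R hRA T).2.1 _ _ _ hRA.base h0
  obtain ⟨f, p, h2, -, h3⟩ := ps_list hPSE hRA T (Rk.lim om2) (dl π) _ h1
  have hM : rp M B z R ∅ = M := (hRP0 ι M B z R R).1
  have hT : T \ ∅ = T := Set.sdiff_empty
  have hbf : ∀ (r : Rk) (q : List (ℕ × ℕ)), Ps M B z R T r q →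
      bf (rp M B z R T) M univ univ r q := by
    intro r q hq
    have := hCOM ι c0 n b M B z R hRA T ∅ (empty_subset _) r q (by rwa [hT])
    rwa [hM] at this
  have hle : RLe (C × ℕ) om2 (Rk.lim om2) := RLe.lim om2
  have hmem := hMEM (rp M B z R T) M π f p (hle _ _ _ _ _ (hbf _ _ h2)) h3
  refine ⟨mp f π, hmem.1.1 hπ, fun Q hQ => ?_⟩
  -- points are answered inside `Q`
  have key : ∀ x ∈ Q, ∃ x' ∈ Q, (x ∈ st (bn (rp M B z R T)) π ↔ x' ∈ st (bn M) (mp f π)) := by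
    intro x hx
    by_cases hb : ∃ i ∈ T, x ∈ B i
    · obtain ⟨i, hi, hxi⟩ := hb
      obtain ⟨x', hx'⟩ := ((hPSE ι c0 n b M B z R hRA T).2.2.2.2
        (fun m => Rk.sucN m om2) p h2 0).1 x
      have h4 : x' ∈ B i := (hx'.2.1 (x, x') List.mem_cons_self i hi).1 hxi
      have hBQ : B i ⊆ Q := by
        rcases hQ i hi with h | h
        · exact h
        · exact absurd hx (Set.disjoint_left.1 h hxi)
      refine ⟨x', hBQ h4, ?_⟩
      exact (hMEM (rp M B z R T) M π f _ (hbf _ _ hx') (fun a ha =>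
        List.mem_cons_of_mem _ (h3 a ha))).2 (x, x') List.mem_cons_self
    · have hb' : ∀ i ∈ T, x ∉ B i := fun i hi hxi => hb ⟨i, hi, hxi⟩
      have hx' := (hPSE ι c0 n b M B z R hRA T).2.2.2.1 _ p x h2 hb'
      refine ⟨x, hx, ?_⟩
      exact (hMEM (rp M B z R T) M π f _ (hle _ _ _ _ _ (hbf _ _ hx')) (fun a ha =>
        List.mem_cons_of_mem _ (h3 a ha))).2 (x, x) List.mem_cons_self
  constructor
  · intro h x hx
    obtain ⟨x', hx', h4⟩ := key x hx
    exact h4.2 (h hx')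
  · intro h
    rw [Set.disjoint_left] at h ⊢
    intro x hx hxs
    obtain ⟨x', hx', h4⟩ := key x hx
    exact h hx' (h4.1 hxs)

end Pool.Agent.CW
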