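import Pool.Agent.H18.CW.AVO
import Pool.Agent.H18.CW.DC2
import Pool.Agent.H18.CW.BLK
import Pool.Agent.H18.CW.CTB
import Pool.Agent.H16.CW.CONT
import Pool.Agent.H16.CW.CT1
import Pool.Agent.H16.CW.CT2
import Pool.Agent.H92.CW.DEC
import Pool.Agent.H92.CW.ULT
import Pool.Agent.H77.CW.SYT
import Pool.Agent.H63.CW.FTY
import Pool.Agent.H63.CW.TAB
import Pool.Agent.H68.CW.NOD
import Pool.Agent.H19.CW.SPL
import Pool.Agent.H19.CW.COM
import Pool.Agent.H19.CW.FBP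
import Pool.Agent.H19.CW.INV
import Pool.Agent.H19.CW.PIB
import Pool.Agent.H6.CW.EXN
import Pool.Agent.H65.CW.IOT
import Pool.Agent.H66.CW.MEM
import Pool.Agent.H66.CW.RPB
import Pool.Agent.H76.CW.MES
import Pool.Agent.H76.CW.DCD
import Pool.Agent.H76.CW.RP0
import Pool.Agent.H89.CW.PSE
import Pool.Agent.H54.CW.TYP

/-! Assembly of groups B and C. -/

set_option autoImplicit false

open Set Pool.Agent.TK Pool.Agent.H71.VK

namespace Pool.Agent.CW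

theorem a_SYT : T_SYT := pf_SYT pf_TAB pf_FTY
theorem a_RFT : T_RFT := pf_RFT pf_TAB pf_FTY
theorem a_FIX : T_FIX := pf_FIX pf_TAB pf_FTY
theorem a_CT2 : T_CT2 := pf_CT2 a_SYT pf_FTY
theorem a_CON : T_CON := pf_CON pf_CT1 a_CT2
theorem a_DEC : T_DEC := pf_DEC a_FIX pf_FTY a_CON
theorem a_ULT : T_ULT := pf_ULT a_DEC
theorem a_DC2 : T_DC2 := pf_DC2 a_DEC pf_FTY

theorem a_SPL (h1 : WGER) (h2 : WGR) : T_SPL := pf_SPL a_ULT h1 h2 a_CON
theorem a_AVO (h1 : WGER) (h2 : WGR) : T_AVO := pf_AVO (a_SPL h1 h2) a_RFT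
theorem a_NOD (h1 : WGER) (h2 : WGR) : T_NOD := pf_NOD (a_SPL h1 h2) (a_AVO h1 h2) a_DC2

section
variable {C : Type}

theorem a_FBP : T_FBP C := pf_FBP pf_MEM
theorem a_COM : T_COM C := pf_COM pf_PIB pf_RPB pf_PSE
theorem a_BLK : T_BLK C := pf_BLK pf_RPB pf_PIB
theorem a_INV : T_INV C := pf_INV pf_MEM a_COM pf_PSE pf_RP0
theorem a_TYP : T_TYP C := pf_TYP pf_MEM a_COM pf_PSE
theorem a_DCD : T_DCD C := pf_DCD pf_MEM a_COM pf_PSE pf_RP0
theorem a_CTB : T_CTB C := pf_CTB a_FBP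

end

end Pool.Agent.CW
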