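import Pool.Agent.H76.CW.FIA

/-! A piece which cannot be split gives a direction with infinitely many germs. -/

set_option autoImplicit false

open Set Pool.Agent.TK Pool.Agent.H71.VK

namespace Pool.Agent.CW

open Classical in
theorem pf_DIR (hULT : T_ULT) (hCON : T_CON) (hDEC : T_DEC) (hFIA : T_FIA) : T_DIR := by
  intro n c Sm G
  rw [or_iff_not_imp_left]
  intro hsp
  unfold SpG at hsp
  push Not at hsp
  obtain ⟨π, hv, hg, hno⟩ := hsp
  refine ⟨π, ?_⟩
  have hult := hULT n c Sm G π hv hg (by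
    intro σ S F x hvd
    by_contra h
    rw [not_or] at h
    exact h.2 (hno σ S F x hvd h.1))
  obtain ⟨hcomp, hint, hfin⟩ := hFIA n c G.bd
  have hres : ∀ {m : ℕ} {A : Set ℕ}, Few c m Aᶜ A →
      Few c m (st c π \ (A ∩ st c π)) (A ∩ st c π) := by
    rintro m A ⟨f, hf⟩
    exact ⟨f, fun a ha a' ha' h z hz => hf a ha.1 a' ha'.1 h z fun h' => hz.2 ⟨h', hz.1⟩⟩
  have hU : Dirn c (Dr G π) := by
    constructor
    · exact fun A hA => hA.1
    · intro A hA B hB hAB
      exact ⟨hB, hA.2.mono fun x hx => ⟨hx.1, fun h => hx.2 (hAB h)⟩⟩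
    · intro A hA B hB
      refine ⟨hint A B hA.1 hB.1, (hA.2.union hB.2).mono ?_⟩
      intro x hx
      by_cases h : x ∈ A
      · exact Or.inr ⟨hx.1, fun h' => hx.2 ⟨h, h'⟩⟩
      · exact Or.inl ⟨hx.1, h⟩
    · rintro A ⟨m, hm⟩
      rcases hult m (A ∩ st c π) inter_subset_right (hres hm) with h | h
      · right
        refine ⟨hcomp A ⟨m, hm⟩, h.mono ?_⟩
        rintro x ⟨hx, hx2⟩
        rw [Set.notMem_compl_iff] at hx2
        exact ⟨hx2, hx⟩
      · left
        refine ⟨⟨m, hm⟩, h.mono ?_⟩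
        rintro x ⟨hx, hx2⟩
        exact ⟨hx, fun h => hx2 h.1⟩
    · intro A hA hAf
      apply hg
      refine (hA.2.union (G.nn_finite hAf)).mono ?_
      intro x hx
      by_cases h : x ∈ A
      · exact Or.inr h
      · exact Or.inl ⟨hx, h⟩
  refine ⟨hv, hg, hU, ?_, ?_⟩
  · rintro ⟨E, hE⟩
    refine hCON n c Sm G π hv hg (E.filterMap fun r =>
      if h : ∃ x ∈ st c π, ∃ A ∈ Dr G π, ∀ y ∈ A, ee c x y = ee c r y then some h.choose else none)
      ?_ ?_
    · intro x hx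
      rw [List.mem_filterMap] at hx
      obtain ⟨r, -, hr⟩ := hx
      by_cases h : ∃ x ∈ st c π, ∃ A ∈ Dr G π, ∀ y ∈ A, ee c x y = ee c r y
      · rw [dif_pos h, Option.some.injEq] at hr
        rw [← hr]
        exact h.choose_spec.1
      · rw [dif_neg h] at hr
        cases hr
    · intro x hx
      obtain ⟨r, hr, A, hA, hAr⟩ := hE x
      have h : ∃ x ∈ st c π, ∃ A ∈ Dr G π, ∀ y ∈ A, ee c x y = ee c r y := ⟨x, hx, A, hA, hAr⟩
      refine ⟨h.choose, ?_, ?_⟩
      · rw [List.mem_filterMap]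
        exact ⟨r, hr, by rw [dif_pos h]⟩
      · obtain ⟨-, B, hB, hBr⟩ := h.choose_spec
        refine ((hU.int A hA B hB).2).mono ?_
        rintro y ⟨hyP, hy⟩
        refine ⟨hyP, fun h' => hy ?_⟩
        rw [hAr y h'.1, hBr y h'.2]
  · rintro A ⟨⟨m, hm⟩, hA⟩
    obtain ⟨s, h1, h2, h3⟩ := hDEC n c Sm G π hv hg m (A ∩ st c π) inter_subset_right (hres hm)
    refine ⟨s, h1, h2, ?_⟩
    rcases h3 with h3 | h3
    · exact fun x hx => (h3 hx).1
    · exfalso
      apply h2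
      refine hA.mono fun x hx => ?_
      have hx' : x ∈ st c π := (st_sub h1 x hx).1
      exact ⟨hx', fun hxA => Set.disjoint_left.1 h3 hx ⟨hxA, hx'⟩⟩

/-- good pieces can be split if there are finitely many germs at every direction -/
theorem spl_of_fg (hDIR : T_DIR) {n : ℕ} {c : ℕ → ℕ → ℕ} {Sm : Pr → Prop} (G : GS n c Sm)
    (hFG : FG c) : SpG n c Sm G := by
  rcases hDIR n c Sm G with h | ⟨π, hπ⟩
  · exact h
  · exact absurd (hFG _ hπ.dir) hπ.germ

theorem g_spl : G_SPL SpG := fun _ _ _ _ h => h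

end Pool.Agent.CW
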