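import Pool.Agent.H76.CW.StmtB
import Pool.Agent.H76.CW.StmtC
import Pool.Agent.H41.CW.StmtD
import Pool.Agent.H75.CW.StmtE
import Pool.Agent.H71.CW.Fin

/-! Assembly of the theorem on classes of bounded clique-width. -/

set_option autoImplicit false

open Set Pool.Agent.TK Pool.Agent.H71.VK

namespace Pool.Agent.CW

theorem cwf_of {C : Type} [MeasurableSpace C] [StandardBorelSpace C] {c0 : C}
    (hLOP : LOP (C × ℕ)) (hNFM : NFM (C × ℕ)) (hTYC : TYC (C × ℕ))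
    (hCTB : T_CTB C) (hFNB : T_FNB C) (hGRP : T_GRP C c0) (hSCH : T_SCH) (hEND : E_END C) :
    CWF C c0 := by
  intro n k X hX hV hW hinv
  by_cases hP : Perf X
  · exact Or.inl hP
  right
  by_contra hT
  obtain ⟨b0, hb0⟩ := hLOP X hX hinv
  obtain ⟨b, hb, hbase⟩ : ∃ b : Rk, RLe (C × ℕ) b0 b ∧ RLe (C × ℕ) (Rk.lim (Rk.lim om2)) b :=
    ⟨Sh (Rk.lim (Rk.lim om2)) b0, RLe.sh_right _ _, RLe.sh_left _ _⟩
  have hyp : Hy c0 n b X :=
    { val := hV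
      cl := fun M hM M' h => hb0 M hM M' (hb _ _ _ _ _ h)
      tc := hTYC X hX hinv hP
      nf := hNFM X hP
      base := hbase }
  obtain ⟨O, hO, hOs⟩ := hCTB c0 n X hV hyp.tc b
  have hfin : ∀ M ∈ X, ∀ (π : Pr) (S : List ℕ) (F : Tab), Vd (bn M) π →
      (∀ a ∈ S, a ∈ st (bn M) π) → Sy F →
      {D : Set ℕ | ∃ v ∈ st (bn M) π, v ∉ S ∧ ¬ SmO O M ((S, F, v, true) :: π) ∧
        D = st (bn M) ((S, F, v, true) :: π)}.Finite := by
    intro M hM π S F hπ hS hF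
    refine (hFNB c0 n b X hyp M hM π S F hπ hS hF).subset ?_
    rintro D ⟨v, hv, hvS, hsm, hD⟩
    refine ⟨v, hv, hvS, fun h => hsm ?_, hD⟩
    exact hOs M hM ((S, F, v, true) :: π) ⟨hπ, hS, hv, hvS⟩ h
  obtain ⟨M, hM, ⟨G⟩⟩ := hGRP n O hO X hX hV hfin hP hT
  obtain ⟨D, B, hS⟩ := hSCH n (bn M) (SmO O M) G k (hW M hM)
  exact hEND c0 n b X hyp M hM (SmO O M) D B hS (fun π hπ h => hOs M hM π hπ h)

end Pool.Agent.CW
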