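import Pool.Agent.H71.CW.Gms

/-! At most `m` germs at every direction: finitely many germs at every direction. -/

set_option autoImplicit false

open Set Pool.Agent.TK Pool.Agent.H71.VK

namespace Pool.Agent.CW

open Classical in
/-- at most `m` germs at every direction implies finitely many germs -/
theorem atm_fg {c : ℕ → ℕ → ℕ} {m : ℕ} (h : AtM c m) : FG c := by
  intro U hU
  by_contra hcon
  unfold FGm at hcon
  push Not at hcon
  -- finite sets of pairwise inequivalent points of every size
  have key : ∀ k : ℕ, ∃ l : List ℕ, l.length = k ∧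
      l.Pairwise (fun x y => ∀ A ∈ U, ∃ z ∈ A, ee c x z ≠ ee c y z) := by
    intro k
    induction k with
    | zero => exact ⟨[], rfl, List.Pairwise.nil⟩
    | succ k ih =>
      obtain ⟨l, hl, hp⟩ := ih
      obtain ⟨x, hx⟩ := hcon l
      refine ⟨x :: l, by rw [List.length_cons, hl], List.pairwise_cons.2 ⟨?_, hp⟩⟩
      intro y hy A hA
      exact hx y hy A hA
  obtain ⟨l, hl, hp⟩ := key (m + 1)
  obtain ⟨i, j, hij, A, hA, hag⟩ := h U hU (fun i => l.get (i.cast hl.symm))
  rcases lt_or_gt_of_ne hij with h1 | h1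
  · obtain ⟨z, hz, hne⟩ := List.pairwise_iff_get.1 hp (i.cast hl.symm) (j.cast hl.symm) h1 A hA
    exact hne (hag z hz)
  · obtain ⟨z, hz, hne⟩ := List.pairwise_iff_get.1 hp (j.cast hl.symm) (i.cast hl.symm) h1 A hA
    exact hne (hag z hz).symm

end Pool.Agent.CW
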