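import Pool.Agent.H76.CW.Defs
import Pool.Agent.H16.TK.BF
import Pool.Agent.H16.TK.Base

/-! Basic facts on pieces. -/

set_option autoImplicit false

open Set Pool.Agent.TK Pool.Agent.H71.VK

namespace Pool.Agent.CW

variable {c : ℕ → ℕ → ℕ}

lemma ee_swap (c : ℕ → ℕ → ℕ) (x y : ℕ) : (ee c x y).swap = ee c y x := rfl

lemma ee_eq_iff {x y x' y' : ℕ} : ee c x y = ee c x' y' ↔ ee c y x = ee c y' x' := by
  unfold ee
  simp only [Prod.mk.injEq]
  tauto

lemma tp_append (c : ℕ → ℕ → ℕ) (L L' : List ℕ) (x : ℕ) :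
    tp c (L ++ L') x = tp c L x ++ tp c L' x := by
  unfold tp
  rw [List.map_append]

lemma tp_eq_iff {L : List ℕ} {x x' : ℕ} : tp c L x = tp c L x' ↔ ∀ s ∈ L, ee c x s = ee c x' s := by
  unfold tp
  exact List.map_inj_left

lemma tp_length (c : ℕ → ℕ → ℕ) (L : List ℕ) (x : ℕ) : (tp c L x).length = L.length := by
  unfold tp
  exact List.length_map _

lemma tp_mono {L L' : List ℕ} (h : L ⊆ L') {x x' : ℕ} (hx : tp c L' x = tp c L' x') :
    tp c L x = tp c L x' := by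
  rw [tp_eq_iff] at hx ⊢
  exact fun s hs => hx s (h hs)

lemma self_mem_cl {P : Set ℕ} {L : List ℕ} {F : Tab} {x : ℕ} : x ∈ cl c P L F x :=
  Relation.ReflTransGen.refl

lemma cl_sub {P : Set ℕ} {L : List ℕ} {F : Tab} {x : ℕ} (hx : x ∈ P) (hL : x ∉ L) :
    ∀ y ∈ cl c P L F x, y ∈ P ∧ y ∉ L := by
  intro y hy
  rcases Relation.ReflTransGen.cases_tail hy with h | ⟨z, -, h⟩
  · rw [h]
    exact ⟨hx, hL⟩
  · exact h.2

/-- there is no arc leaving a closure -/
lemma cl_out {P : Set ℕ} {L : List ℕ} {F : Tab} {x y z : ℕ} (hy : y ∈ cl c P L F x) (hz : z ∈ P)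
    (hzL : z ∉ L) (hzc : z ∉ cl c P L F x) : ee c y z = lk F (tp c L y) (tp c L z) := by
  by_contra h
  exact hzc (Relation.ReflTransGen.tail hy ⟨h, hz, hzL⟩)

/-- a set which is closed under arcs contains the closures of its points -/
lemma cl_min {P : Set ℕ} {L : List ℕ} {F : Tab} {x : ℕ} {A : Set ℕ} (hx : x ∈ A)
    (hA : ∀ u ∈ A, ∀ v ∈ P, v ∉ L → Ar c L F u v → v ∈ A) : cl c P L F x ⊆ A := by
  intro y hy
  induction hy with
  | refl => exact hx
  | tail _ h ih => exact hA _ ih _ h.2.1 h.2.2 h.1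

/-- symmetric tables give graphs: the closures are components -/
lemma ar_symm {L : List ℕ} {F : Tab} (hF : Sy F) {x y : ℕ} (h : Ar c L F x y) : Ar c L F y x := by
  unfold Ar at h ⊢
  intro h'
  apply h
  rw [hF, ← h', ee_swap]

lemma cl_symm {P : Set ℕ} {L : List ℕ} {F : Tab} (hF : Sy F) {x y : ℕ} (hx : x ∈ P) (hL : x ∉ L)
    (h : y ∈ cl c P L F x) : x ∈ cl c P L F y := by
  induction h with
  | refl => exact Relation.ReflTransGen.refl
  | @tail u v huv h ih =>
    have hu := cl_sub hx hL u huv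
    exact Relation.ReflTransGen.head ⟨ar_symm hF h.1, hu.1, hu.2⟩ ih

lemma cl_eq {P : Set ℕ} {L : List ℕ} {F : Tab} (hF : Sy F) {x y : ℕ} (hx : x ∈ P) (hL : x ∉ L)
    (h : y ∈ cl c P L F x) : cl c P L F y = cl c P L F x := by
  have h' := cl_symm hF hx hL h
  ext z
  exact ⟨fun hz => Relation.ReflTransGen.trans h hz, fun hz => Relation.ReflTransGen.trans h' hz⟩

lemma st_true (π : Pr) (S : List ℕ) (F : Tab) (x : ℕ) :
    st c ((S, F, x, true) :: π) = cl c (st c π) (S ++ zl π) F x := rfl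

lemma st_false (π : Pr) (S : List ℕ) (F : Tab) (x : ℕ) :
    st c ((S, F, x, false) :: π) = co c (st c π) (S ++ zl π) F x := rfl

lemma zl_cons (s : Stp) (π : Pr) : zl (s :: π) = s.1 ++ zl π := rfl

lemma dl_cons (s : Stp) (π : Pr) : dl (s :: π) = s.2.2.1 :: (s.1 ++ dl π) := rfl

lemma vd_cons {s : Stp} {π : Pr} : Vd c (s :: π) ↔
    Vd c π ∧ (∀ a ∈ s.1, a ∈ st c π) ∧ s.2.2.1 ∈ st c π ∧ s.2.2.1 ∉ s.1 := Iff.rfl

/-- the control list is disjoint from the piece; the piece is controlled by it -/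
lemma ctl_aux : ∀ {π : Pr}, Vd c π → (∀ a ∈ zl π, a ∉ st c π) ∧
    ∀ x ∈ st c π, ∀ x' ∈ st c π, tp c (zl π) x = tp c (zl π) x' →
      ∀ y, y ∉ st c π → ee c x y = ee c x' y := by
  intro π
  induction π with
  | nil =>
    intro _
    exact ⟨by simp [zl], fun x _ x' _ _ y hy => absurd (mem_univ y) hy⟩
  | cons s π ih =>
    obtain ⟨S, F, v, β⟩ := s
    intro hv
    obtain ⟨h1, h2, h3, h4⟩ := vd_cons.1 hv
    simp only at h2 h3 h4
    obtain ⟨i1, i2⟩ := ih h1
    have hvL : v ∉ S ++ zl π := by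
      rw [List.mem_append]
      rintro (h | h)
      · exact h4 h
      · exact i1 v h h3
    have hsub : ∀ y ∈ st c ((S, F, v, β) :: π), y ∈ st c π ∧ y ∉ S ++ zl π := by
      intro y hy
      cases β with
      | true =>
        rw [st_true] at hy
        exact cl_sub h3 hvL y hy
      | false =>
        rw [st_false] at hy
        exact ⟨hy.1, hy.2.1⟩
    refine ⟨fun a ha h => (hsub a h).2 ha, ?_⟩
    intro x hx x' hx' hxx y hy
    rw [zl_cons] at hxx
    simp only at hxx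
    by_cases hyP : y ∈ st c π
    · by_cases hyL : y ∈ S ++ zl π
      · exact tp_eq_iff.1 hxx y hyL
      · cases β with
        | true =>
          rw [st_true] at hx hx' hy
          rw [cl_out hx hyP hyL hy, cl_out hx' hyP hyL hy, hxx]
        | false =>
          rw [st_false] at hx hx' hy
          have hyc : y ∈ cl c (st c π) (S ++ zl π) F v := by
            by_contra h
            exact hy ⟨hyP, hyL, h⟩
          rw [ee_eq_iff, cl_out hyc hx.1 hx.2.1 hx.2.2, cl_out hyc hx'.1 hx'.2.1 hx'.2.2, hxx]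
    · exact i2 x (hsub x hx).1 x' (hsub x' hx').1
        (tp_mono (List.subset_append_right _ _) hxx) y hyP

lemma zl_disj {π : Pr} (h : Vd c π) : ∀ a ∈ zl π, a ∉ st c π := (ctl_aux h).1

lemma ctl {π : Pr} (h : Vd c π) {x x' : ℕ} (hx : x ∈ st c π) (hx' : x' ∈ st c π)
    (ht : tp c (zl π) x = tp c (zl π) x') {y : ℕ} (hy : y ∉ st c π) : ee c x y = ee c x' y :=
  (ctl_aux h).2 x hx x' hx' ht y hy

lemma base_not_mem {s : Stp} {π : Pr} (h : Vd c (s :: π)) : s.2.2.1 ∉ s.1 ++ zl π := by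
  obtain ⟨h1, -, h3, h4⟩ := vd_cons.1 h
  rw [List.mem_append]
  rintro (h | h)
  · exact h4 h
  · exact zl_disj h1 _ h h3

lemma st_sub {s : Stp} {π : Pr} (h : Vd c (s :: π)) :
    ∀ y ∈ st c (s :: π), y ∈ st c π ∧ y ∉ s.1 ++ zl π := by
  obtain ⟨S, F, v, β⟩ := s
  intro y hy
  cases β with
  | true =>
    rw [st_true] at hy
    exact cl_sub (vd_cons.1 h).2.2.1 (base_not_mem h) y hy
  | false =>
    rw [st_false] at hy
    exact ⟨hy.1, hy.2.1⟩

lemma vd_app : ∀ {σ π : Pr}, Vd c (σ ++ π) → Vd c π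
  | [], _, h => h
  | _ :: _, _, h => vd_app (vd_cons.1 h).1

lemma st_app : ∀ {σ π : Pr}, Vd c (σ ++ π) → st c (σ ++ π) ⊆ st c π
  | [], _, _ => subset_rfl
  | s :: σ, π, h => fun y hy => st_app (σ := σ) (π := π) (vd_cons.1 h).1 (st_sub (s := s) h y hy).1

/-- the two sides of a step -/
lemma vd_flip {π : Pr} {S : List ℕ} {F : Tab} {x : ℕ} {β : Bool} (γ : Bool)
    (h : Vd c ((S, F, x, β) :: π)) : Vd c ((S, F, x, γ) :: π) := h

lemma st_disj (π : Pr) (S : List ℕ) (F : Tab) (x : ℕ) :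
    Disjoint (st c ((S, F, x, true) :: π)) (st c ((S, F, x, false) :: π)) := by
  rw [Set.disjoint_left]
  intro y hy hy'
  rw [st_true] at hy
  rw [st_false] at hy'
  exact hy'.2.2 hy

lemma st_cover {π : Pr} {S : List ℕ} {F : Tab} {x : ℕ} {y : ℕ} (h : Vd c π) (hy : y ∈ st c π)
    (hS : y ∉ S) : y ∈ st c ((S, F, x, true) :: π) ∨ y ∈ st c ((S, F, x, false) :: π) := by
  by_cases h1 : y ∈ st c ((S, F, x, true) :: π)
  · exact Or.inl h1
  · right
    rw [st_true] at h1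
    rw [st_false]
    refine ⟨hy, ?_, h1⟩
    rw [List.mem_append]
    rintro (h2 | h2)
    · exact hS h2
    · exact zl_disj h y h2 hy

lemma base_mem {π : Pr} {S : List ℕ} {F : Tab} {x : ℕ} : x ∈ st c ((S, F, x, true) :: π) :=
  self_mem_cl

lemma zl_sub_dl : ∀ π : Pr, zl π ⊆ dl π
  | [] => by simp [zl]
  | s :: π => by
    rw [zl_cons, dl_cons]
    intro a ha
    rcases List.mem_append.1 ha with h | h
    · exact List.mem_cons_of_mem _ (List.mem_append_left _ h)
    · exact List.mem_cons_of_mem _ (List.mem_append_right _ (zl_sub_dl π h))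

lemma dl_sub_cons (s : Stp) (π : Pr) : dl π ⊆ dl (s :: π) := by
  rw [dl_cons]
  intro a ha
  exact List.mem_cons_of_mem _ (List.mem_append_right _ ha)

lemma dl_app (σ π : Pr) : dl π ⊆ dl (σ ++ π) := by
  induction σ with
  | nil => exact fun a ha => ha
  | cons s σ ih => exact fun a ha => dl_sub_cons s (σ ++ π) (ih ha)

/-- the parameters of an extension are old parameters or lie in the piece -/
lemma dl_ext : ∀ {σ π : Pr}, Vd c (σ ++ π) → ∀ a ∈ dl (σ ++ π), a ∈ dl π ∨ a ∈ st c π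
  | [], _, _, _, ha => Or.inl ha
  | s :: σ, π, h, a, ha => by
    have h1 : Vd c (s :: (σ ++ π)) := h
    obtain ⟨h2, h3, h4, -⟩ := vd_cons.1 h1
    have ha' : a ∈ dl (s :: (σ ++ π)) := ha
    rw [dl_cons, List.mem_cons, List.mem_append] at ha'
    rcases ha' with h5 | h5 | h5
    · rw [h5]
      exact Or.inr (st_app h2 h4)
    · exact Or.inr (st_app h2 (h3 a h5))
    · exact dl_ext h2 a h5

/-! ### renaming -/

lemma mp_nil (h : ℕ → ℕ) : mp h [] = [] := rfl

lemma mp_cons (h : ℕ → ℕ) (s : Stp) (π : Pr) :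
    mp h (s :: π) = (s.1.map h, s.2.1, h s.2.2.1, s.2.2.2) :: mp h π := rfl

lemma zl_mp (h : ℕ → ℕ) : ∀ π : Pr, zl (mp h π) = (zl π).map h
  | [] => rfl
  | s :: π => by
    rw [mp_cons, zl_cons, zl_cons, zl_mp h π, List.map_append]

lemma dl_mp (h : ℕ → ℕ) : ∀ π : Pr, dl (mp h π) = (dl π).map h
  | [] => rfl
  | s :: π => by
    rw [mp_cons, dl_cons, dl_cons, dl_mp h π, List.map_cons, List.map_append]

lemma mp_mp (h g : ℕ → ℕ) (π : Pr) : mp g (mp h π) = mp (g ∘ h) π := by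
  unfold mp
  rw [List.map_map]
  apply List.map_congr_left
  intro s _
  simp

lemma mp_id (π : Pr) : mp id π = π := by
  unfold mp
  conv_rhs => rw [← List.map_id π]
  apply List.map_congr_left
  intro s _
  simp

lemma mp_congr {h g : ℕ → ℕ} : ∀ {π : Pr}, (∀ a ∈ dl π, h a = g a) → mp h π = mp g π
  | [], _ => rfl
  | s :: π, H => by
    rw [mp_cons, mp_cons]
    rw [dl_cons] at H
    have h1 : s.1.map h = s.1.map g := List.map_congr_left fun a ha =>
      H a (List.mem_cons_of_mem _ (List.mem_append_left _ ha))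
    rw [h1, H s.2.2.1 (List.mem_cons_self), mp_congr fun a ha =>
      H a (List.mem_cons_of_mem _ (List.mem_append_right _ ha))]

/-! ### isomorphisms -/

lemma ee_iso {c' : ℕ → ℕ → ℕ} {h : ℕ → ℕ} (H : ∀ x y, c' (h x) (h y) = c x y) (x y : ℕ) :
    ee c' (h x) (h y) = ee c x y := by
  unfold ee
  rw [H, H]

lemma tp_iso {c' : ℕ → ℕ → ℕ} {h : ℕ → ℕ} (H : ∀ x y, c' (h x) (h y) = c x y) (L : List ℕ)
    (x : ℕ) : tp c' (L.map h) (h x) = tp c L x := by
  unfold tp
  rw [List.map_map]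
  exact List.map_congr_left fun s _ => ee_iso H x s

lemma cl_iso {c' : ℕ → ℕ → ℕ} (h : Equiv.Perm ℕ) (H : ∀ x y, c' (h x) (h y) = c x y)
    (P : Set ℕ) (L : List ℕ) (F : Tab) (x : ℕ) :
    cl c' (h '' P) (L.map h) F (h x) = h '' cl c P L F x := by
  have hL : ∀ v, h v ∈ L.map h ↔ v ∈ L := fun v => by simp
  have hA : ∀ u v, Ar c' (L.map h) F (h u) (h v) ↔ Ar c L F u v := fun u v => by
    unfold Ar
    rw [ee_iso H, tp_iso H, tp_iso H]
  apply Set.Subset.antisymm
  · intro y hy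
    induction hy with
    | refl => exact ⟨x, self_mem_cl, rfl⟩
    | @tail u v _ hv ih =>
      obtain ⟨u', hu', rfl⟩ := ih
      obtain ⟨v', hv', rfl⟩ := hv.2.1
      exact ⟨v', Relation.ReflTransGen.tail hu' ⟨(hA _ _).1 hv.1, hv',
        fun h1 => hv.2.2 ((hL v').2 h1)⟩, rfl⟩
  · rintro _ ⟨y, hy, rfl⟩
    induction hy with
    | refl => exact self_mem_cl
    | @tail u v _ hv ih =>
      exact Relation.ReflTransGen.tail ih ⟨(hA _ _).2 hv.1, ⟨v, hv.2.1, rfl⟩,
        fun h1 => hv.2.2 ((hL v).1 h1)⟩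

lemma st_iso {c' : ℕ → ℕ → ℕ} (h : Equiv.Perm ℕ) (H : ∀ x y, c' (h x) (h y) = c x y) :
    ∀ π : Pr, st c' (mp h π) = h '' st c π
  | [] => by
    change (univ : Set ℕ) = h '' univ
    rw [Set.image_univ, h.surjective.range_eq]
  | s :: π => by
    have ih := st_iso h H π
    obtain ⟨S, F, x, β⟩ := s
    rw [mp_cons]
    simp only
    cases β with
    | true =>
      rw [st_true, st_true, ih, zl_mp, ← List.map_append, cl_iso h H]
    | false =>
      rw [st_false, st_false, ih, zl_mp, ← List.map_append]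
      unfold co
      rw [cl_iso h H]
      ext y
      simp only [Set.mem_ofPred_eq, Set.mem_image]
      constructor
      · rintro ⟨⟨y', h1, rfl⟩, h2, h3⟩
        refine ⟨y', ⟨h1, ?_, ?_⟩, rfl⟩
        · intro h4
          exact h2 (List.mem_map_of_mem h4)
        · intro h4
          exact h3 ⟨y', h4, rfl⟩
      · rintro ⟨y', ⟨h1, h2, h3⟩, rfl⟩
        refine ⟨⟨y', h1, rfl⟩, ?_, ?_⟩
        · intro h4
          obtain ⟨z, hz, hzy⟩ := List.mem_map.1 h4
          exact h2 (h.injective hzy ▸ hz)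
        · rintro ⟨z, hz, hzy⟩
          exact h3 (h.injective hzy ▸ hz)

lemma vd_iso {c' : ℕ → ℕ → ℕ} (h : Equiv.Perm ℕ) (H : ∀ x y, c' (h x) (h y) = c x y) :
    ∀ π : Pr, Vd c' (mp h π) ↔ Vd c π
  | [] => Iff.rfl
  | s :: π => by
    rw [mp_cons, vd_cons, vd_cons, vd_iso h H π]
    simp only
    rw [st_iso h H π]
    have h1 : ∀ a, h a ∈ h '' st c π ↔ a ∈ st c π := fun a =>
      ⟨fun ⟨b, hb, hba⟩ => h.injective hba ▸ hb, fun ha => ⟨a, ha, rfl⟩⟩
    have h2 : (∀ a ∈ s.1.map h, a ∈ h '' st c π) ↔ ∀ a ∈ s.1, a ∈ st c π := by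
      constructor
      · intro h3 a ha
        exact (h1 a).1 (h3 _ (List.mem_map_of_mem ha))
      · intro h3 a ha
        obtain ⟨b, hb, rfl⟩ := List.mem_map.1 ha
        exact (h1 b).2 (h3 b hb)
    have h3 : h s.2.2.1 ∉ s.1.map h ↔ s.2.2.1 ∉ s.1 := by simp
    rw [h2, h1, h3]

/-- a piece is invariant under the automorphisms which fix its parameters -/
lemma st_fix (h : Equiv.Perm ℕ) (H : ∀ x y, c (h x) (h y) = c x y) {π : Pr}
    (hp : ∀ a ∈ dl π, h a = a) : h '' st c π = st c π := by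
  rw [← st_iso h H π]
  congr 1
  rw [mp_congr (g := id) hp, mp_id]

end Pool.Agent.CW
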