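import Pool.Agent.H76.CW.StmtG

/-! The sets of finite index form an algebra. -/

set_option autoImplicit false

open Set Pool.Agent.TK Pool.Agent.H71.VK

namespace Pool.Agent.CW

lemma fi_of {c : ℕ → ℕ → ℕ} {A : Set ℕ} {β : Type} [Finite β] (f : ℕ → β)
    (hf : ∀ a ∈ A, ∀ a' ∈ A, f a = f a' → ∀ z, z ∉ A → ee c a z = ee c a' z) : Fi c A := by
  obtain ⟨m, ⟨e⟩⟩ := Finite.exists_equiv_fin β
  exact ⟨m, fun a => e (f a), fun a ha a' ha' h z hz => hf a ha a' ha' (e.injective h) z hz⟩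

lemma fi_few {c : ℕ → ℕ → ℕ} {A : Set ℕ} (h : Fi c A) : ∃ (m : ℕ) (f : ℕ → Fin m),
    ∀ a ∈ A, ∀ a' ∈ A, f a = f a' → ∀ z, z ∉ A → ee c a z = ee c a' z := by
  obtain ⟨m, f, hf⟩ := h
  exact ⟨m, f, fun a ha a' ha' h z hz => hf a ha a' ha' h z hz⟩

open Classical in
/-- FIA: the sets of finite index form an algebra which contains the finite sets. -/
theorem pf_FIA : T_FIA := by
  intro n c hb
  refine ⟨fun A hA => ?_, fun A B hA hB => ?_, fun A hA => ?_⟩
  · obtain ⟨m, f, hf⟩ := fi_few hA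
    let g : ℕ → (Fin m → Fin n × Fin n) := fun z i =>
      if h : ∃ a ∈ A, f a = i then (⟨c h.choose z, hb _ _⟩, ⟨c z h.choose, hb _ _⟩)
      else (⟨c 0 0, hb _ _⟩, ⟨c 0 0, hb _ _⟩)
    refine fi_of g fun z hz z' hz' hzz a ha => ?_
    rw [Set.notMem_compl_iff] at ha
    have h0 : ∃ a' ∈ A, f a' = f a := ⟨a, ha, rfl⟩
    have h1 := congrFun hzz (f a)
    simp only [g, dif_pos h0, Prod.mk.injEq, Fin.mk.injEq] at h1
    have h2 := hf h0.choose h0.choose_spec.1 a ha h0.choose_spec.2 z hz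
    have h3 := hf h0.choose h0.choose_spec.1 a ha h0.choose_spec.2 z' hz'
    have h4 : ee c h0.choose z = ee c h0.choose z' := by
      unfold ee
      rw [h1.1, h1.2]
    rw [ee_eq_iff, ← h2, ← h3]
    exact h4
  · obtain ⟨m, f, hf⟩ := fi_few hA
    obtain ⟨k, g, hg⟩ := fi_few hB
    refine fi_of (fun a => (f a, g a)) fun a ha a' ha' h z hz => ?_
    simp only [Prod.mk.injEq] at h
    by_cases hzA : z ∈ A
    · exact hg a ha.2 a' ha'.2 h.2 z fun h' => hz ⟨hzA, h'⟩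
    · exact hf a ha.1 a' ha'.1 h.1 z hzA
  · obtain ⟨N, hN⟩ := hA.bddAbove
    refine fi_of (fun a => (Fin.ofNat (N + 1) a)) fun a ha a' ha' h z _ => ?_
    have h1 : a ≤ N := hN ha
    have h2 : a' ≤ N := hN ha'
    have h3 : a = a' := by
      have h4 := congrArg Fin.val h
      simp only [Fin.ofNat_eq_cast, Fin.val_natCast] at h4
      rw [Nat.mod_eq_of_lt (by omega), Nat.mod_eq_of_lt (by omega)] at h4
      exact h4
    rw [h3]

end Pool.Agent.CW
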