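import Pool.Agent.H76.CW.StmtC

set_option autoImplicit false

open Set Pool.Agent.TK Pool.Agent.H71.VK

namespace Pool.Agent.CW

theorem mex_of {C : Type} [MeasurableSpace C] (hCOM : T_COM C) (hPSE : T_PSE C)
    (hRP0 : T_RP0 C) : T_MEX C := by
  intro ι c0 n b X hX M hM B z R hRA T
  have h0 : Ps M B z R T b (dg []) := (hPSE ι c0 n b M B z R hRA T).1 [] (by simp)
  have h1 : bf (rp M B z R T) (rp M B z R ∅) univ univ b (dg []) :=
    hCOM ι c0 n b M B z R hRA T ∅ (empty_subset _) b (dg []) (by rwa [Set.sdiff_empty])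
  rw [(hRP0 ι M B z R R).1] at h1
  have h2 : bf (rp M B z R T) M univ univ b [] := h1
  have h3 := bf_symm h2
  exact hX.cl M hM _ h3

end Pool.Agent.CW
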