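import Pool.Agent.H76.CW.FIA
import Pool.Agent.H71.CW.Tk

/-! Module TKB: a direction with infinitely many germs gives an infinite inseparable set. -/

set_option autoImplicit false

open Set

namespace Pool.Agent.CW

/-- the points reachable from `a` by walks outside `S` -/
private def KB (G : SimpleGraph ℕ) (S : Finset ℕ) (a : ℕ) : Set ℕ :=
  {v | ∃ w : G.Walk a v, ∀ u ∈ w.support, u ∉ S}

private lemma kb_ext {G : SimpleGraph ℕ} {S : Finset ℕ} {a x z : ℕ} (hx : x ∈ KB G S a)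
    (hz : z ∉ S) (h : G.Adj x z) : z ∈ KB G S a := by
  obtain ⟨w, hw⟩ := hx
  refine ⟨w.concat h, fun u hu => ?_⟩
  rw [SimpleGraph.Walk.support_concat, List.mem_append,
    List.mem_singleton] at hu
  rcases hu with hu | rfl
  · exact hw u hu
  · exact hz

private lemma kb_fi {n : ℕ} {c : ℕ → ℕ → ℕ} (hb : ∀ x y, c x y < n) (e : ℕ) (S : Finset ℕ)
    (a : ℕ) : Fi c (KB (SimpleGraph.fromRel fun i j => c i j ≠ e) S a) := by
  refine fi_of (β := S → Fin n × Fin n)
    (fun x s => (⟨c x s, hb _ _⟩, ⟨c s x, hb _ _⟩)) fun x hx x' hx' h z hz => ?_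
  by_cases hzS : z ∈ S
  · have h1 := congrFun h ⟨z, hzS⟩
    simp only [Prod.mk.injEq, Fin.mk.injEq] at h1
    unfold ee
    rw [h1.1, h1.2]
  · have key : ∀ y ∈ KB (SimpleGraph.fromRel fun i j => c i j ≠ e) S a, ee c y z = (e, e) := by
      intro y hy
      by_contra hne
      apply hz
      refine kb_ext hy hzS ?_
      rw [SimpleGraph.fromRel_adj]
      refine ⟨fun h2 => hz (h2 ▸ hy), ?_⟩
      by_contra h3
      push Not at h3
      exact hne (by unfold ee; rw [h3.1, h3.2])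
    rw [key x hx, key x' hx']

open Classical in
/-- TKB: a direction with infinitely many germs gives an infinite inseparable set. -/
theorem pf_TKB : T_TKB := by
  intro n c U e hb hU hG
  obtain ⟨hcomp, hint, hfin⟩ := pf_FIA n c hb
  have hcof : ∀ A : Set ℕ, A.Finite → Aᶜ ∈ U := by
    intro A hA
    rcases hU.ult A (hfin A hA) with h | h
    · exact absurd hA (hU.fin A h)
    · exact h
  have huniv : (univ : Set ℕ) ∈ U := by
    have := hcof ∅ finite_empty
    rwa [compl_empty] at this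
  set Γ : SimpleGraph ℕ := SimpleGraph.fromRel fun i j => c i j ≠ e with hΓ
  have hnadj : ∀ {x y : ℕ}, x ≠ y → ¬ Γ.Adj x y → ee c x y = (e, e) := by
    intro x y hxy h
    rw [hΓ, SimpleGraph.fromRel_adj] at h
    push Not at h
    obtain ⟨h1, h2⟩ := h hxy
    unfold ee
    rw [h1, h2]
  refine ⟨{a | ∀ A ∈ U, ∃ y ∈ A, Γ.Adj a y}, ?_, ?_⟩
  · intro hBf
    apply hG
    obtain ⟨a0, ha0⟩ := hBf.exists_notMem
    have hA : ∀ a, a ∉ {a | ∀ A ∈ U, ∃ y ∈ A, Γ.Adj a y} → ∃ A ∈ U, ∀ y ∈ A,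
        ee c a y = (e, e) := by
      intro a ha
      rw [mem_ofPred_eq] at ha
      push Not at ha
      obtain ⟨A, hA, hA2⟩ := ha
      refine ⟨A ∩ {a}ᶜ, hU.int A hA _ (hcof {a} (finite_singleton a)), fun y hy => ?_⟩
      exact hnadj (fun h => hy.2 h.symm) (hA2 y hy.1)
    refine ⟨a0 :: hBf.toFinset.toList, fun x => ?_⟩
    by_cases hx : x ∈ {a | ∀ A ∈ U, ∃ y ∈ A, Γ.Adj a y}
    · refine ⟨x, ?_, univ, huniv, fun y _ => rfl⟩
      rw [List.mem_cons, Finset.mem_toList, Set.Finite.mem_toFinset]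
      exact Or.inr hx
    · obtain ⟨A, hA1, hA2⟩ := hA x hx
      obtain ⟨A', hA1', hA2'⟩ := hA a0 ha0
      refine ⟨a0, List.mem_cons_self, A ∩ A', hU.int A hA1 A' hA1', fun y hy => ?_⟩
      rw [hA2 y hy.1, hA2' y hy.2]
  · have hK : ∀ a ∈ {a | ∀ A ∈ U, ∃ y ∈ A, Γ.Adj a y}, ∀ S : Finset ℕ, a ∉ S →
        KB Γ S a ∈ U := by
      intro a ha S haS
      rcases hU.ult _ (kb_fi hb e S a) with h | h
      · exact h
      · exfalso
        obtain ⟨y, hy, hay⟩ := ha _ (hU.int _ h _ (hcof (S : Set ℕ) S.finite_toSet))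
        refine hy.1 (kb_ext ⟨SimpleGraph.Walk.nil, fun u hu => ?_⟩ (fun h2 => hy.2 h2) hay)
        rw [SimpleGraph.Walk.support_nil, List.mem_singleton] at hu
        rw [hu]
        exact haS
    intro a ha b hb' _ S haS hbS
    have h1 := hU.int _ (hK a ha S haS) _ (hK b hb' S hbS)
    obtain ⟨v, ⟨w1, hw1⟩, ⟨w2, hw2⟩⟩ := (hU.fin _ h1).nonempty
    refine ⟨w1.append w2.reverse, fun u hu => ?_⟩
    rw [SimpleGraph.Walk.mem_support_append_iff, SimpleGraph.Walk.support_reverse,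
      List.mem_reverse] at hu
    rcases hu with hu | hu
    · exact hw1 u hu
    · exact hw2 u hu

end Pool.Agent.CW
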