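import Pool.Agent.H76.CW.FIA

/-! Structures of finite width have finitely many germs at every direction. -/

set_option autoImplicit false

open Set Pool.Agent.TK Pool.Agent.H71.VK

namespace Pool.Agent.CW

theorem pf_WFG (hFIA : T_FIA) (h1 : WGER) (h2 : WGR) : T_WFG := by
  intro n c k hb hW U hU
  obtain ⟨hcomp, hint, hfin⟩ := hFIA n c hb
  have hI : Idl {B : Set ℕ | ∃ A ∈ U, Disjoint A B} := by
    constructor
    · rintro B ⟨A, hA, hAB⟩ B' hB'
      exact ⟨A, hA, hAB.mono_right hB'⟩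
    · rintro B ⟨A, hA, hAB⟩ B' ⟨A', hA', hAB'⟩
      refine ⟨A ∩ A', hU.int A hA A' hA', ?_⟩
      rw [Set.disjoint_union_right]
      exact ⟨hAB.mono_left inter_subset_left, hAB'.mono_left inter_subset_right⟩
    · intro B hB
      rcases hU.ult B (hfin B hB) with h | h
      · exact absurd hB (hU.fin B h)
      · exact ⟨Bᶜ, h, disjoint_compl_left⟩
  have hD : (univ : Set ℕ) ∉ {B : Set ℕ | ∃ A ∈ U, Disjoint A B} := by
    rintro ⟨A, hA, hAB⟩
    rw [Set.disjoint_univ] at hAB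
    exact hU.fin A hA (hAB ▸ finite_empty)
  obtain ⟨R, -, hR⟩ := h2 c {B : Set ℕ | ∃ A ∈ U, Disjoint A B} univ hI
    (h1 c n k hb hW {B : Set ℕ | ∃ A ∈ U, Disjoint A B} univ hI hD (by
      intro A hA
      rcases hU.ult A ⟨_, hA⟩ with h | h
      · right
        refine ⟨A, h, ?_⟩
        rw [Set.disjoint_left]
        exact fun x hx hx' => hx'.2 hx
      · left
        refine ⟨Aᶜ, h, ?_⟩
        rw [Set.disjoint_left]
        exact fun x hx hx' => hx hx'.2))
  refine ⟨R, fun x => ?_⟩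
  obtain ⟨r, hr, A, hA, hAd⟩ := hR x (mem_univ x)
  refine ⟨r, hr, A, hA, fun y hy => ?_⟩
  by_contra hne
  exact Set.disjoint_left.1 hAd hy ⟨mem_univ y, hne⟩

end Pool.Agent.CW
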